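import Pool.Agent.Q179.NF.Core

/-!
# MP_9624c8_gt, Q1: answer NO

The closed Haar-null set `∏ C_n^*` is not a countable union of Borel null-finite sets.
-/

open Set Filter Topology

namespace Pool.Agent.Results.MP_9624c8_gt.NotCovered

open Pool.Agent.Q179.NF

universe u

/-- A subset `B` of a topological group is null-finite if for some sequence `y k → 1` every
set `{k | x * y k ∈ B}` is finite. -/
def NullFinite {X : Type u} [Group X] [TopologicalSpace X] (B : Set X) : Prop :=
  ∃ y : ℕ → X, Tendsto y atTop (𝓝 1) ∧ ∀ x : X, {k | x * y k ∈ B}.Finite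

/-- The group `X = ∏_{n ≥ 2} C_n`, `C_n` the group of `n`-th roots of unity in `ℂ`. -/
abbrev X : Type := ∀ n : ℕ, rootsOfUnity (n + 2) ℂ

/-- The set `A = ∏_{n ≥ 2} C_n^*`. -/
def A : Set X := {x | ∀ n, x n ≠ 1}

theorem general (G : ℕ → Type u) [∀ n, Group (G n)] [∀ n, Finite (G n)]
    [∀ n, TopologicalSpace (G n)] [∀ n, DiscreteTopology (G n)] (h2 : ∀ n, 2 ≤ Nat.card (G n))
    (hinf : Tendsto (fun n => Nat.card (G n)) atTop atTop) (B : ℕ → Set (∀ n, G n))
    (hB : ∀ j, @MeasurableSet _ (borel (∀ n, G n)) (B j)) (hNF : ∀ j, NullFinite (B j)) :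
    ¬ {x : ∀ n, G n | ∀ n, x n ≠ 1} ⊆ ⋃ j, B j := by
  classical
  intro hcov
  let _ : ∀ n, Fintype (G n) := fun n => Fintype.ofFinite (G n)
  have hcard : ∀ n, Fintype.card (G n) = Nat.card (G n) := fun n => Nat.card_eq_fintype_card.symm
  choose y hy hfin using hNF
  have ha : ∀ n, ∃ a : G n, a ≠ 1 := by
    intro n
    by_contra hno
    push Not at hno
    have : Nat.card (G n) ≤ 1 := by
      rw [Finite.card_le_one_iff_subsingleton]
      exact ⟨fun a b => by rw [hno a, hno b]⟩
    have := h2 n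
    omega
  choose a0 ha0 using ha
  obtain ⟨j, x, hx⟩ := core (G := G) (fun n => by rw [hcard]; have := h2 n; omega)
    (F0 := fun _ => {1})
    (by
      intro m
      obtain ⟨N, hN⟩ := (tendsto_atTop.1 hinf m).exists_forall_of_atTop
      refine ⟨N, fun n hn => ?_⟩
      rw [Finset.card_singleton, mul_one, hcard]
      exact hN n hn)
    (a0 := a0) (fun n => by simpa using ha0 n) B hB
    (by
      intro x hx
      exact hcov fun n => by simpa using hx n)
    (fun j k n => Equiv.mulRight (y j k n))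
    (by
      intro j n
      have h1 : Tendsto (fun k => y j k n) atTop (𝓝 1) := by
        have := (continuous_apply n).tendsto (1 : ∀ n, G n)
        exact this.comp (hy j)
      rw [nhds_discrete, tendsto_pure] at h1
      obtain ⟨k0, hk0⟩ := h1.exists_forall_of_atTop
      refine ⟨k0, fun k hk => ?_⟩
      ext z
      simp [hk0 k hk])
  exact hx (hfin j x)

theorem result :
    (¬ ∃ B : ℕ → Set X, (∀ k, @MeasurableSet X (borel X) (B k) ∧ NullFinite (B k)) ∧
      A = ⋃ k, B k) ∧
    (∀ (G : ℕ → Type u) [∀ n, Group (G n)] [∀ n, Finite (G n)] [∀ n, TopologicalSpace (G n)]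
      [∀ n, DiscreteTopology (G n)], (∀ n, 2 ≤ Nat.card (G n)) →
      Tendsto (fun n => Nat.card (G n)) atTop atTop →
      ∀ B : ℕ → Set (∀ n, G n),
        (∀ k, @MeasurableSet _ (borel (∀ n, G n)) (B k) ∧ NullFinite (B k)) →
          ¬ {x : ∀ n, G n | ∀ n, x n ≠ 1} ⊆ ⋃ k, B k) := by
  refine ⟨?_, ?_⟩
  · rintro ⟨B, hB, hA⟩
    have hc : ∀ n : ℕ, Nat.card (rootsOfUnity (n + 2) ℂ) = n + 2 := by
      intro n
      exact Complex.card_rootsOfUnity (n + 2)
    refine general (fun n : ℕ => rootsOfUnity (n + 2) ℂ) (fun n => by rw [hc n]; omega) ?_ B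
      (fun k => (hB k).1) (fun k => (hB k).2) hA.subset
    have : (fun n : ℕ => Nat.card (rootsOfUnity (n + 2) ℂ)) = fun n => n + 2 := funext hc
    rw [this]
    exact tendsto_add_atTop_nat 2
  · intro G _ _ _ _ h2 hinf B hB
    exact general G h2 hinf B (fun k => (hB k).1) (fun k => (hB k).2)

end Pool.Agent.Results.MP_9624c8_gt.NotCovered
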